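import Mathlib

namespace Pool.Agent.Results.MP_f91ac8_co.NotRegular

/-- `PPL` of the word `u 1, u 2, u 3, …` (the value `u 0` is not used). -/
noncomputable def PPL {A : Type} (u : ℕ → A) (n : ℕ) : ℕ :=
  sInf {k | ∃ L : List (List A), L.length = k ∧ (∀ p ∈ L, p ≠ [] ∧ p.reverse = p) ∧
    L.flatten = (List.range n).map fun i => u (i + 1)}

/-- `u n` is computed by a DFAO reading the base-`d` expansion of `n` (leading digit first). -/
def Automatic {A : Type} (d : ℕ) (u : ℕ → A) : Prop :=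
  ∃ (Q : Type) (_ : Finite Q) (q0 : Q) (δ : Q → ℕ → Q) (τ : Q → A),
    ∀ n, u n = τ ((Nat.digits d n).reverse.foldl δ q0)

/-- The `ℤ`-span of the `d`-kernel of `f` is finitely generated. -/
def Regular (d : ℕ) (f : ℕ → ℤ) : Prop :=
  (Submodule.span ℤ {g : ℕ → ℤ | ∃ e r : ℕ, r < d ^ e ∧ g = fun n => f (d ^ e * n + r)}).FG

def dl (c b : ℕ) : ℕ :=
  if c = 0 then (if b = 0 then 0 else 1) else if c = 1 then (if b = 0 then 3 else 2)
  else if c = 2 then (if b = 0 then 4 else 5) else if c = 3 then (if b = 0 then 3 else 7)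
  else if c = 4 then (if b = 0 then 7 else 4) else if c = 5 then 5 else c + 1

def st (n : ℕ) : ℕ := (Nat.digits 2 n).foldr (fun b c => dl c b) 0

def h (n : ℕ) : ℕ := st n - 6

def u (n : ℕ) : Fin 3 := ⟨h n % 3, Nat.mod_lt _ (by omega)⟩

def qt (c : ℕ) : Fin 9 := ⟨if c < 6 then c else 6 + c % 3, by split_ifs <;> omega⟩

theorem dl6 (c b : ℕ) (hc : 6 ≤ c) : dl c b = c + 1 := by
  unfold dl
  split_ifs <;> omega

theorem qt_dl (c b : ℕ) : qt (dl (qt c) b) = qt (dl c b) := by
  by_cases hc : c < 6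
  · rw [show (qt c).val = c from if_pos hc]
  · rw [show (qt c).val = 6 + c % 3 from if_neg hc, dl6 c b (by omega), dl6 _ b (by omega)]
    apply Fin.ext
    change (if _ then _ else _) = (if _ then _ else _)
    rw [if_neg (by omega), if_neg (by omega)]
    omega

theorem aut : Automatic 2 u := by
  refine ⟨Fin 9, inferInstance, 0, fun q b => qt (dl q b), fun q => ⟨(q - 6) % 3,
    Nat.mod_lt _ (by omega)⟩, fun n => ?_⟩
  have : ∀ l : List ℕ, l.foldr (fun b (q : Fin 9) => qt (dl q b)) 0 =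
      qt (l.foldr (fun b c => dl c b) 0) := by
    intro l
    induction l with
    | nil => rfl
    | cons b l ih =>
      rw [List.foldr_cons, List.foldr_cons, ih, qt_dl]
  rw [List.foldl_reverse, this]
  apply Fin.ext
  change (st n - 6) % 3 = ((if st n < 6 then st n else 6 + st n % 3) - 6) % 3
  split_ifs <;> omega

theorem st_rec (n : ℕ) (hn : 0 < n) : st n = dl (st (n / 2)) (n % 2) := by
  rw [st, Nat.digits_def' (by omega) hn]; rfl

theorem sz (m : ℕ) (hm : 0 < m) : m.size = (m / 2).size + 1 := by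
  apply le_antisymm
  · have := Nat.lt_size_self (m / 2)
    rw [Nat.size_le, pow_succ]; omega
  · have := Nat.lt_size_self m
    obtain ⟨j, hj⟩ := Nat.exists_eq_succ_of_ne_zero (Nat.size_pos.2 hm).ne'
    rw [hj, pow_succ] at this
    rw [hj]
    exact Nat.succ_le_succ (Nat.size_le.2 (by omega))

theorem sz1 (m : ℕ) : (m + 1).size ≤ m.size + 1 := by
  have := Nat.lt_size_self m
  rw [Nat.size_le, pow_succ]; omega

theorem szeq {m j : ℕ} (h1 : 2 ^ j ≤ m) (h2 : m < 2 * 2 ^ j) : m.size = j + 1 :=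
  le_antisymm (Nat.size_le.2 (by rw [pow_succ]; omega)) (Nat.lt_size.2 h1)

theorem st_all (k : ℕ) : ∀ n,
    (∀ m, n = 4 * 2 ^ k + m → m < 2 * 2 ^ k → st n = if m = 0 then 3 else 6 + m.size) ∧
    (∀ m, n + m + 1 = 7 * 2 ^ k → m < 2 ^ k → st n = if m = 0 then 4 else 6 + m.size) ∧
    (7 * 2 ^ k ≤ n → n < 8 * 2 ^ k → st n = 5) := by
  induction k with
  | zero =>
    refine fun n => ⟨fun m h1 h2 => ?_, fun m h1 h2 => ?_, fun h1 h2 => ?_⟩
    · subst h1; interval_cases m <;> simp [st, dl]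
    · obtain rfl : m = 0 := by omega
      obtain rfl : n = 6 := by omega
      simp [st, dl]
    · obtain rfl : n = 7 := by omega
      simp [st, dl]
  | succ k ih =>
    intro n
    have hK : 0 < 2 ^ k := by positivity
    rw [pow_succ]
    refine ⟨fun m h1 h2 => ?_, fun m h1 h2 => ?_, fun h1 h2 => ?_⟩
    · rw [st_rec n (by omega), (ih (n / 2)).1 (m / 2) (by omega) (by omega)]
      rcases Nat.eq_zero_or_pos m with rfl | hm
      · simp [dl, show n % 2 = 0 by omega]
      · by_cases h4 : m / 2 = 0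
        · obtain rfl : m = 1 := by omega
          simp [dl, show n % 2 = 1 by omega]
        · rw [if_neg h4, if_neg hm.ne', dl6 _ _ (by omega), sz m hm, add_assoc]
    · rw [st_rec n (by omega), (ih (n / 2)).2.1 (m / 2) (by omega) (by omega)]
      rcases Nat.eq_zero_or_pos m with rfl | hm
      · simp [dl, show n % 2 = 1 by omega]
      · by_cases h4 : m / 2 = 0
        · obtain rfl : m = 1 := by omega
          simp [dl, show n % 2 = 0 by omega]
        · rw [if_neg h4, if_neg hm.ne', dl6 _ _ (by omega), sz m hm, add_assoc]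
    · rw [st_rec n (by omega), (ih (n / 2)).2.2 (by omega) (by omega)]
      rfl

theorem up (k n m : ℕ) (h1 : n = 4 * 2 ^ k + m) (h2 : m < 2 * 2 ^ k) : h n = m.size := by
  rw [h, (st_all k n).1 m h1 h2]
  split_ifs with h3
  · simp [h3]
  · omega

theorem dn (k n m : ℕ) (h1 : n + m + 1 = 7 * 2 ^ k) (h2 : m < 2 * 2 ^ k) : h n = m.size := by
  by_cases h4 : m < 2 ^ k
  · rw [h, (st_all k n).2.1 m h1 h4]
    split_ifs with h3
    · simp [h3]
    · omega
  · rw [up k n (n - 4 * 2 ^ k) (by omega) (by omega), szeq (j := k) (by omega) (by omega),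
      szeq (j := k) (by omega) (by omega)]

theorem val (k n : ℕ) (h1 : 7 * 2 ^ k ≤ n + 1) (h2 : n ≤ 8 * 2 ^ k) : h n = 0 := by
  have hK : 0 < 2 ^ k := by positivity
  by_cases h3 : n + 1 = 7 * 2 ^ k
  · exact dn k n 0 h3 (by omega)
  by_cases h4 : n = 8 * 2 ^ k
  · exact up (k + 1) n 0 (by rw [pow_succ]; omega) (by positivity)
  · rw [h, (st_all k n).2.2 (by omega) (by omega)]

theorem small (n : ℕ) (hn : n ≤ 4) : h n = 0 := by
  interval_cases n <;> simp [h, st, dl]

theorem per (n : ℕ) (hn : 4 ≤ n) : ∃ k, 4 * 2 ^ k ≤ n ∧ n < 8 * 2 ^ k := by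
  induction n, hn using Nat.le_induction with
  | base => exact ⟨0, by omega⟩
  | succ n _ ih =>
    obtain ⟨k, h1, h2⟩ := ih
    by_cases h3 : n + 1 < 8 * 2 ^ k
    · exact ⟨k, by omega, h3⟩
    · exact ⟨k + 1, by rw [pow_succ]; omega⟩

theorem asc (k n : ℕ) (h1 : 4 * 2 ^ k ≤ n) (h2 : n + 1 < 6 * 2 ^ k) :
    h n ≤ h (n + 1) ∧ h (n + 1) ≤ h n + 1 := by
  rw [up k n (n - 4 * 2 ^ k) (by omega) (by omega),
    up k (n + 1) (n - 4 * 2 ^ k + 1) (by omega) (by omega)]
  exact ⟨Nat.size_le_size (by omega), sz1 _⟩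

theorem desc (k n : ℕ) (h1 : 5 * 2 ^ k ≤ n) (h2 : n < 8 * 2 ^ k) :
    h (n + 1) ≤ h n ∧ h n ≤ h (n + 1) + 1 := by
  by_cases h3 : 7 * 2 ^ k ≤ n + 1
  · rw [val k n h3 (by omega), val k (n + 1) (by omega) (by omega)]; omega
  rw [dn k n (7 * 2 ^ k - 2 - n + 1) (by omega) (by omega),
    dn k (n + 1) (7 * 2 ^ k - 2 - n) (by omega) (by omega)]
  exact ⟨Nat.size_le_size (by omega), sz1 _⟩

theorem lip (n : ℕ) : h n ≤ h (n + 1) + 1 ∧ h (n + 1) ≤ h n + 1 := by
  by_cases hn : 4 ≤ n
  · obtain ⟨k, h1, h2⟩ := per n hn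
    have hK : 0 < 2 ^ k := by positivity
    by_cases h3 : 5 * 2 ^ k ≤ n
    · have := desc k n h3 h2; omega
    · by_cases h4 : n + 1 < 6 * 2 ^ k
      · have := asc k n h1 h4; omega
      · omega
  · rw [small n (by omega), small (n + 1) (by omega)]; omega

theorem peak (k n : ℕ) (h1 : 5 * 2 ^ k ≤ n) (h2 : n < 6 * 2 ^ k) : h n = k + 1 := by
  rw [up k n (n - 4 * 2 ^ k) (by omega) (by omega), szeq (j := k) (by omega) (by omega)]

theorem aft (k n : ℕ) (h1 : 6 * 2 ^ k ≤ n) (h2 : n < 9 * 2 ^ k) : h n ≤ k := by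
  by_cases h3 : n + 1 < 7 * 2 ^ k
  · rw [dn k n (7 * 2 ^ k - 1 - n) (by omega) (by omega), Nat.size_le]; omega
  by_cases h4 : n ≤ 8 * 2 ^ k
  · rw [val k n (by omega) h4]; omega
  · rw [up (k + 1) n (n - 8 * 2 ^ k) (by rw [pow_succ]; omega) (by rw [pow_succ]; omega),
      Nat.size_le]
    omega

theorem bef (k : ℕ) : ∀ n, n < 5 * 2 ^ k → h n ≤ k := by
  induction k with
  | zero => exact fun n hn => (small n (by omega)).le
  | succ k ih =>
    intro n hn
    rw [pow_succ] at hn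
    by_cases h1 : n < 5 * 2 ^ k
    · exact (ih n h1).trans (by omega)
    by_cases h2 : n < 6 * 2 ^ k
    · exact (peak k n (by omega) h2).le
    by_cases h3 : n < 9 * 2 ^ k
    · exact (aft k n (by omega) h3).trans (by omega)
    · rw [up (k + 1) n (n - 8 * 2 ^ k) (by rw [pow_succ]; omega) (by rw [pow_succ]; omega),
        Nat.size_le, pow_succ]
      omega

def Pal {A : Type} (v : ℕ → A) (x y : ℕ) : Prop :=
  ∀ i j, x ≤ i → x ≤ j → i + j + 1 = x + y → v i = v j

theorem pal_h {x y : ℕ} (H : Pal u x y) : Pal h x y := by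
  have : ∀ t i j, x ≤ i → i ≤ j → j - i ≤ t → i + j + 1 = x + y → h i = h j := by
    intro t
    induction t with
    | zero => intro i j _ _ _ _; rw [show i = j by omega]
    | succ t ih =>
      intro i j h1 h2 h3 h4
      have h5 : h i % 3 = h j % 3 := congrArg Fin.val (H i j h1 (by omega) h4)
      have h6 := lip i
      by_cases h7 : j ≤ i + 1
      · rcases (by omega : j = i ∨ j = i + 1) with rfl | rfl <;> omega
      · obtain ⟨j, rfl⟩ : ∃ j', j = j' + 1 := ⟨j - 1, by omega⟩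
        have := ih (i + 1) j (by omega) (by omega) (by omega) (by omega)
        have := lip j
        omega
  intro i j h1 h2 h3
  rcases le_total i j with h4 | h4
  · exact this _ i j h1 h4 le_rfl h3
  · exact (this _ j i h2 h4 le_rfl (by omega)).symm

theorem cent {x y k : ℕ} (H : Pal h x (y + 1)) (h1 : x < 5 * 2 ^ k) (h2 : 5 * 2 ^ k ≤ y)
    (h3 : y < 9 * 2 ^ k) : x + y + 1 = 11 * 2 ^ k := by
  have key : ∀ i, 5 * 2 ^ k ≤ i → i < 6 * 2 ^ k → i ≤ y →
      5 * 2 ^ k ≤ x + y - i ∧ x + y - i < 6 * 2 ^ k := by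
    intro i h4 h5 h6
    have h7 := H i (x + y - i) (by omega) (by omega) (by omega)
    rw [peak k i h4 h5] at h7
    have := bef k (x + y - i)
    have := aft k (x + y - i)
    omega
  have h4 := H x y le_rfl (by omega) (by omega)
  have := bef k x h1
  have := peak k y h2
  have := key (5 * 2 ^ k) le_rfl (by omega) h2
  have := key (6 * 2 ^ k - 1) (by omega) (by omega) (by omega)
  omega

theorem sym1 {x y k : ℕ} (h1 : 7 * 2 ^ k ≤ x + 1) (h2 : x + y = 22 * 2 ^ k) : Pal h x y := by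
  have : ∀ i j, x ≤ i → i ≤ j → i + j + 1 = x + y → h i = h j := by
    intro i j h3 h4 h5
    by_cases h6 : i ≤ 8 * 2 ^ k
    · rw [val k i (by omega) h6, val (k + 1) j (by rw [pow_succ]; omega) (by rw [pow_succ]; omega)]
    · rw [up (k + 1) i (i - 8 * 2 ^ k) (by rw [pow_succ]; omega) (by rw [pow_succ]; omega),
        dn (k + 1) j (i - 8 * 2 ^ k) (by rw [pow_succ]; omega) (by rw [pow_succ]; omega)]
  intro i j h3 h4 h5
  rcases le_total i j with h6 | h6
  · exact this i j h3 h6 h5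
  · exact (this j i h4 h6 (by omega)).symm

theorem sym2 {x y k : ℕ} (h1 : 5 * 2 ^ k ≤ x) (h2 : x + y = 15 * 2 ^ k) : Pal h x y := by
  have : ∀ i j, x ≤ i → i ≤ j → i + j + 1 = x + y → h i = h j := by
    intro i j h3 h4 h5
    by_cases h6 : 7 * 2 ^ k ≤ i + 1
    · rw [val k i h6 (by omega), val k j (by omega) (by omega)]
    · rw [dn k i (7 * 2 ^ k - 1 - i) (by omega) (by omega),
        up (k + 1) j (7 * 2 ^ k - 1 - i) (by rw [pow_succ]; omega) (by rw [pow_succ]; omega)]
  intro i j h3 h4 h5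
  rcases le_total i j with h6 | h6
  · exact this i j h3 h6 h5
  · exact (this j i h4 h6 (by omega)).symm

def B (t n : ℕ) : Prop := ∀ k,
  (4 * 2 ^ k ≤ n → n < 5 * 2 ^ k → k + h (n + 1) ≤ t + 3 ∨ 2 * k + 1 ≤ t + 3 + h n) ∧
  (5 * 2 ^ k ≤ n → n < 8 * 2 ^ k → k + 1 + h (n + 1) ≤ t + 3 ∨ 2 * k + 2 ≤ t + 3 + h (n + 1))

theorem Bstep {t x y : ℕ} (hB : B t x) (hxy : x < y) (H : Pal h (x + 1) (y + 1)) :
    B (t + 1) y := by
  have e := H (x + 1) y le_rfl hxy (by omega)
  intro k
  refine ⟨fun h1 h2 => ?_, fun h1 h2 => ?_⟩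
  · by_cases hk : k ≤ 1
    · omega
    obtain ⟨k, rfl⟩ : ∃ j, k = j + 2 := ⟨k - 2, by omega⟩
    have p1 : 2 ^ (k + 1) = 2 * 2 ^ k := by ring
    have p2 : 2 ^ (k + 2) = 4 * 2 ^ k := by ring
    have hK : 0 < 2 ^ k := by positivity
    have a1 := asc (k + 2) y h1 (by omega)
    by_cases c1 : 4 * 2 ^ (k + 2) ≤ x
    · have := (hB (k + 2)).1 c1 (by omega)
      have := asc (k + 2) x c1 (by omega)
      omega
    by_cases c2 : 5 * 2 ^ (k + 1) ≤ x
    · have := (hB (k + 1)).2 c2 (by omega)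
      omega
    by_cases c3 : x + 1 = 5 * 2 ^ (k + 1)
    · have := (hB (k + 1)).1 (by omega) (by omega)
      have := peak (k + 1) (x + 1) (by omega) (by omega)
      have := bef (k + 1) x (by omega)
      omega
    have b1 := bef (k + 1) (x + 1) (by omega)
    by_cases c4 : y < 9 * 2 ^ (k + 1)
    · have h3 := cent H (k := k + 1) (by omega) (by omega) c4
      have h4 := H (7 * 2 ^ k - 2) (15 * 2 ^ k + 1) (by omega) (by omega) (by omega)
      rw [dn k _ 1 (by omega) (by omega), val (k + 1) _ (by omega) (by omega)] at h4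
      simp at h4
    · have := up (k + 2) y (y - 4 * 2 ^ (k + 2)) (by omega) (by omega)
      rw [szeq (j := k + 1) (by omega) (by omega)] at this
      omega
  · by_cases hk : k = 0
    · omega
    obtain ⟨k, rfl⟩ : ∃ j, k = j + 1 := ⟨k - 1, by omega⟩
    have p1 : 2 ^ (k + 1) = 2 * 2 ^ k := by ring
    have hK : 0 < 2 ^ k := by positivity
    have a1 := desc (k + 1) y h1 h2
    by_cases c1 : 5 * 2 ^ (k + 1) ≤ x
    · have := (hB (k + 1)).2 c1 (by omega)
      omega
    by_cases c3 : x + 1 = 5 * 2 ^ (k + 1)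
    · have := (hB (k + 1)).1 (by omega) (by omega)
      have := peak (k + 1) (x + 1) (by omega) (by omega)
      have := bef (k + 1) x (by omega)
      omega
    have h3 := cent H (k := k + 1) (by omega) h1 (by omega)
    by_cases c2 : 4 * 2 ^ (k + 1) ≤ x
    · have := (hB (k + 1)).1 c2 (by omega)
      have := sym1 (k := k) (x := x) (y := y + 2) (by omega) (by omega) x (y + 1) le_rfl
        (by omega) (by omega)
      omega
    · have := (hB k).2 (by omega) (by omega)
      have := val (k + 1) y (by omega) (by omega)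
      have := val (k + 1) (y + 1) (by omega) (by omega)
      omega

theorem pre_add {A : Type} (v : ℕ → A) (n l : ℕ) : (List.range (n + l)).map (fun i => v (i + 1)) =
    (List.range n).map (fun i => v (i + 1)) ++ (List.range l).map fun i => v (n + i + 1) := by
  rw [List.range_add, List.map_append, List.map_map]; rfl

theorem seg_pal {A : Type} (v : ℕ → A) (n l : ℕ) :
    ((List.range l).map fun i => v (n + i + 1)).reverse =
      ((List.range l).map fun i => v (n + i + 1)) ↔ Pal v (n + 1) (n + l + 1) := by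
  constructor
  · intro H i j h1 h2 h3
    have := List.getElem_of_eq H (i := i - (n + 1)) (by simp; omega)
    simp only [List.getElem_reverse, List.getElem_map, List.getElem_range, List.length_map,
      List.length_range] at this
    rw [show i = n + (i - (n + 1)) + 1 by omega, ← this]
    congr 1; omega
  · intro H
    refine List.ext_getElem (by simp) fun i h1 h2 => ?_
    simp only [List.getElem_reverse, List.getElem_map, List.getElem_range, List.length_map,
      List.length_range] at h2 ⊢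
    exact H _ _ (by omega) (by omega) (by omega)

theorem low (L : List (List (Fin 3))) : ∀ n, (∀ p ∈ L, p ≠ [] ∧ p.reverse = p) →
    L.flatten = (List.range n).map (fun i => u (i + 1)) → B L.length n := by
  induction L using List.reverseRecOn with
  | nil =>
    intro n _ h2 k
    have := congrArg List.length h2
    have hK : 0 < 2 ^ k := by positivity
    simp at this
    omega
  | append_singleton L p ih =>
    intro n h1 h2
    have h3 := congrArg List.length h2
    simp only [List.flatten_append, List.flatten_singleton, List.length_append, List.length_map,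
      List.length_range] at h2 h3
    rw [← h3, pre_add] at h2
    obtain ⟨h4, h5⟩ := List.append_inj h2 (by simp)
    obtain ⟨h6, h7⟩ := h1 p (by simp)
    have h8 := List.length_pos_iff.2 h6
    rw [h5, seg_pal, h3] at h7
    rw [List.length_append]
    exact Bstep (ih _ (fun q hq => h1 q (by simp [hq])) h4) (by omega) (pal_h h7)

theorem ne (n : ℕ) : ∃ L : List (List (Fin 3)), L.length = PPL u n ∧
    (∀ p ∈ L, p ≠ [] ∧ p.reverse = p) ∧ L.flatten = (List.range n).map fun i => u (i + 1) := by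
  refine Nat.sInf_mem (s := {k | ∃ L : List (List (Fin 3)), L.length = k ∧
    (∀ p ∈ L, p ≠ [] ∧ p.reverse = p) ∧ L.flatten = (List.range n).map fun i => u (i + 1)})
    ⟨_, ((List.range n).map fun i => u (i + 1)).map fun a => [a], rfl, fun p hp => ?_, ?_⟩
  · obtain ⟨a, -, rfl⟩ := List.mem_map.1 hp
    simp
  · generalize (List.range n).map (fun i => u (i + 1)) = l
    induction l <;> simp_all

theorem U (x y : ℕ) (hxy : x ≤ y) (H : Pal h (x + 1) (y + 1)) : PPL u y ≤ PPL u x + 1 := by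
  obtain ⟨l, rfl⟩ := Nat.exists_eq_add_of_le hxy
  rcases Nat.eq_zero_or_pos l with rfl | hl
  · simp
  obtain ⟨L, h1, h2, h3⟩ := ne x
  refine Nat.sInf_le ⟨L ++ [(List.range l).map fun i => u (x + i + 1)], by simp [h1],
    fun p hp => ?_, by simp [pre_add, h3]⟩
  rcases List.mem_append.1 hp with hp | hp
  · exact h2 p hp
  · rw [List.mem_singleton.1 hp, seg_pal]
    exact ⟨by simpa using hl.ne', fun i j a b c => Fin.ext (congrArg (· % 3) (H i j a b c))⟩

theorem U1 (x : ℕ) : PPL u (x + 1) ≤ PPL u x + 1 :=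
  U x (x + 1) (by omega) fun i j _ _ _ => by rw [show i = j by omega]

theorem U0 (x : ℕ) : PPL u x ≤ x := by
  induction x with
  | zero => exact Nat.sInf_le ⟨[], rfl, by simp, rfl⟩
  | succ x ih => exact (U1 x).trans (by omega)

theorem chA (k : ℕ) : ∃ q, 7 * 2 ^ k ≤ q + 2 ∧ q ≤ 8 * 2 ^ k ∧ PPL u q ≤ k + 5 := by
  induction k with
  | zero => exact ⟨5, by omega, by omega, U0 5⟩
  | succ k ih =>
    obtain ⟨q, h1, h2, h3⟩ := ih
    have hK : 0 < 2 ^ k := by positivity
    have := U q (22 * 2 ^ k - 2 - q) (by omega) (sym1 (k := k) (by omega) (by omega))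
    exact ⟨22 * 2 ^ k - 2 - q, by rw [pow_succ]; omega, by rw [pow_succ]; omega, by omega⟩

theorem upA (k j : ℕ) (hj : j ≤ k) : PPL u (8 * 2 ^ k + 2 ^ j - 1) ≤ k + j + 6 := by
  induction j with
  | zero =>
    obtain ⟨q, h1, h2, h3⟩ := chA k
    have := U q (8 * 2 ^ k) h2 fun i j _ _ _ => by
      rw [val k i (by omega) (by omega), val k j (by omega) (by omega)]
    simp only [pow_zero, Nat.add_sub_cancel]
    omega
  | succ j ih =>
    have h1 : 2 ^ (j + 1) ≤ 2 ^ k := Nat.pow_le_pow_right (by omega) hj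
    have h2 : 0 < 2 ^ j := by positivity
    have h3 := ih (by omega)
    rw [pow_succ] at h1 ⊢
    have key : ∀ i, 8 * 2 ^ k + 2 ^ j ≤ i → i < 8 * 2 ^ k + 2 * 2 ^ j → h i = j + 1 := by
      intro i a b
      rw [up (k + 1) i (i - 8 * 2 ^ k) (by rw [pow_succ]; omega) (by rw [pow_succ]; omega),
        szeq (j := j) (by omega) (by omega)]
    have := U (8 * 2 ^ k + 2 ^ j - 1) (8 * 2 ^ k + 2 ^ j * 2 - 1) (by omega) fun i j _ _ _ => by
      rw [key i (by omega) (by omega), key j (by omega) (by omega)]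
    omega

theorem chB (k : ℕ) : PPL u (5 * 2 ^ k - 1) ≤ k + 4 := by
  induction k with
  | zero => exact U0 4
  | succ k ih =>
    have hK : 0 < 2 ^ k := by positivity
    have := U (5 * 2 ^ k - 1) (5 * (2 ^ k * 2) - 1) (by omega) (sym2 (k := k) (by omega) (by omega))
    rw [pow_succ]
    omega

theorem dnB (k s : ℕ) : ∀ j, j + s = k + 1 → PPL u (7 * 2 ^ k - 2 ^ j - 1) ≤ k + s + 4 := by
  induction s with
  | zero =>
    intro j hj
    rw [show j = k + 1 by omega, pow_succ, show 7 * 2 ^ k - 2 ^ k * 2 - 1 = 5 * 2 ^ k - 1 by omega]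
    exact chB k
  | succ s ih =>
    intro j hj
    have h1 : 2 ^ j ≤ 2 ^ k := Nat.pow_le_pow_right (by omega) (by omega)
    have h2 : 0 < 2 ^ j := by positivity
    have h3 := ih (j + 1) (by omega)
    rw [pow_succ] at h3
    have key : ∀ i, 7 * 2 ^ k ≤ i + 2 * 2 ^ j → i + 2 ^ j < 7 * 2 ^ k → h i = j + 1 := by
      intro i a b
      rw [dn k i (7 * 2 ^ k - 1 - i) (by omega) (by omega), szeq (j := j) (by omega) (by omega)]
    have := U (7 * 2 ^ k - 2 ^ j * 2 - 1) (7 * 2 ^ k - 2 ^ j - 1) (by omega) fun i j _ _ _ => by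
      rw [key i (by omega) (by omega), key j (by omega) (by omega)]
    omega

theorem est (a j : ℕ) : min (a + 2 * j) (2 * a + j) ≤ PPL u (2 ^ j * (8 * 2 ^ a + 1)) + 1 ∧
    PPL u (2 ^ j * (8 * 2 ^ a + 1)) ≤ min (a + 2 * j) (2 * a + j) + 7 := by
  rw [show 2 ^ j * (8 * 2 ^ a + 1) = 8 * 2 ^ (j + a) + 2 ^ j by ring]
  have h1 : 2 ^ j ≤ 2 ^ (j + a) := Nat.pow_le_pow_right (by omega) (by omega)
  have h2 : 0 < 2 ^ j := by positivity
  have p : 2 ^ (j + a + 1) = 2 * 2 ^ (j + a) := by ring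
  constructor
  · obtain ⟨L, h3, h4, h5⟩ := ne (8 * 2 ^ (j + a) + 2 ^ j)
    have h6 := (low L _ h4 h5 (j + a + 1)).1 (by omega) (by omega)
    have h7 := asc (j + a + 1) (8 * 2 ^ (j + a) + 2 ^ j) (by omega) (by omega)
    rw [up (j + a + 1) (8 * 2 ^ (j + a) + 2 ^ j) (2 ^ j) (by omega) (by omega),
      Nat.size_pow] at h6 h7
    omega
  · have h3 := upA (j + a) j (by omega)
    have h4 := dnB (j + a) (a + 1) j (by omega)
    have h5 := U (7 * 2 ^ (j + a) - 2 ^ j - 1) (8 * 2 ^ (j + a) + 2 ^ j - 1) (by omega)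
      (sym2 (k := j + a) (by omega) (by omega))
    have h6 := U1 (8 * 2 ^ (j + a) + 2 ^ j - 1)
    rw [show 8 * 2 ^ (j + a) + 2 ^ j - 1 + 1 = 8 * 2 ^ (j + a) + 2 ^ j by omega] at h6
    omega

theorem pig (M : Submodule ℤ (ℕ → ℤ)) (hM : M.FG) (D : ℕ → ℕ → ℤ) (hD : ∀ j, D j ∈ M) :
    ∃ i j, i < j ∧ ∀ n, (100 : ℤ) ∣ D j n - D i n := by
  let φ : (ℕ → ℤ) →ₗ[ℤ] (ℕ → ZMod 100) :=
    (Int.castAddHom (ZMod 100)).toIntLinearMap.compLeft ℕ
  have h1 : Module.Finite ℤ (M.map φ) := Module.Finite.iff_fg.2 (hM.map φ)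
  have h2 : Finite (M.map φ) := Module.finite_of_fg_torsion _ fun x =>
    ⟨⟨100, mem_nonZeroDivisors_of_ne_zero (by decide)⟩, Subtype.ext (funext fun n => by
      change (100 : ℤ) • x.1 n = 0
      rw [zsmul_eq_mul]
      exact mul_eq_zero_of_left (by decide) _)⟩
  obtain ⟨i, j, h3, h4⟩ := Finite.exists_ne_map_eq_of_infinite
    fun j => (⟨φ (D j), Submodule.mem_map_of_mem (hD j)⟩ : M.map φ)
  have h5 : ∀ n, ((D i n : ℤ) : ZMod 100) = (D j n : ℤ) :=
    fun n => congrFun (congrArg Subtype.val h4) n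
  rcases lt_or_gt_of_ne h3 with h6 | h6
  · exact ⟨i, j, h6, fun n => (ZMod.intCast_eq_intCast_iff_dvd_sub _ _ 100).1 (h5 n)⟩
  · exact ⟨j, i, h6, fun n => (ZMod.intCast_eq_intCast_iff_dvd_sub _ _ 100).1 (h5 n).symm⟩

theorem result : ∃ (A : Type) (_ : Finite A) (u : ℕ → A), Automatic 2 u ∧
    ¬ Regular 2 fun n => (PPL u n : ℤ) := by
  refine ⟨Fin 3, inferInstance, u, aut, fun hR => ?_⟩
  obtain ⟨i, j, hij, H⟩ := pig _ hR
    (fun j => (fun n => (PPL u (2 ^ (j + 1) * n + 0) : ℤ)) - fun n => (PPL u (2 ^ j * n + 0) : ℤ))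
    fun j => Submodule.sub_mem _ (Submodule.subset_span ⟨j + 1, 0, by positivity, rfl⟩)
      (Submodule.subset_span ⟨j, 0, by positivity, rfl⟩)
  obtain ⟨π, rfl⟩ := Nat.exists_eq_add_of_lt hij
  let G : ℕ → ℤ := fun j => PPL u (2 ^ j * (8 * 2 ^ (i + 40 * (π + 1)) + 1))
  have h0 : ∀ j, (min (i + 40 * (π + 1) + 2 * j) (2 * (i + 40 * (π + 1)) + j) : ℕ) ≤ G j + 1 ∧
      G j ≤ (min (i + 40 * (π + 1) + 2 * j) (2 * (i + 40 * (π + 1)) + j) : ℕ) + 7 := fun j => by
    have := est (i + 40 * (π + 1)) j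
    simp only [G]
    omega
  have h1 : ∀ s, G (i + s + (π + 1)) - G (i + s) = G (i + (π + 1)) - G i := by
    intro s
    induction s with
    | zero => rfl
    | succ s ih =>
      have h2 := H (2 ^ s * (8 * 2 ^ (i + 40 * (π + 1)) + 1))
      simp only [Pi.sub_apply, ← mul_assoc, ← pow_add, add_zero] at h2
      change (100 : ℤ) ∣ G (i + π + 1 + 1 + s) - G (i + π + 1 + s) - (G (i + 1 + s) - G (i + s))
        at h2
      have a1 := h0 (i + π + 1 + 1 + s)
      have a2 := h0 (i + π + 1 + s)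
      have a3 := h0 (i + 1 + s)
      have a4 := h0 (i + s)
      rw [show i + s + (π + 1) = i + π + 1 + s by omega] at ih
      rw [show i + (s + 1) + (π + 1) = i + π + 1 + 1 + s by omega,
        show i + (s + 1) = i + 1 + s by omega]
      omega
  have h2 : ∀ t : ℕ, G (i + t * (π + 1)) = G i + t * (G (i + (π + 1)) - G i) := by
    intro t
    induction t with
    | zero => simp
    | succ t ih =>
      have := h1 (t * (π + 1))
      rw [show i + (t + 1) * (π + 1) = i + t * (π + 1) + (π + 1) by ring]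
      push_cast
      linarith
  have a1 := h0 i
  have a2 := h0 (i + 40 * (π + 1))
  have a3 := h0 (i + 80 * (π + 1))
  have a4 := h2 40
  have a5 := h2 80
  omega

end Pool.Agent.Results.MP_f91ac8_co.NotRegular
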